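import Pool.Agent.helper70.NZ.SpecC

/-!
# MP_baa4d7_al, THEOREM NZ, row YNF: the chain sum
-/

set_option autoImplicit false

namespace Pool.Agent.ND.NY.E

open Pool.Agent.helper58.DC Pool.Agent.DI Pool.Agent.GR Pool.Agent.OB Pool.Agent.DR Pool.Agent.FI Pool.Agent.FI3 Pool.Agent.FI4 Pool.Agent.FI4I Pool.Agent.LE Pool.Agent.L5 Pool.Agent.NAB Pool.Agent.NE
open Pool.Agent.ZB (Pm Om KZ EQ BQ lQ MZc BDK)

theorem YNF_comm {α β : Type} [Finite α] [Finite β] (S : Set α) (f : α → β → ℂ) :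
    ∑ᶠ a ∈ S, ∑ᶠ b, f a b = ∑ᶠ b, ∑ᶠ a ∈ S, f a b := by
  have := finsum_mem_comm f (Set.toFinite S) (Set.finite_univ (α := β))
  simpa only [finsum_mem_univ] using this

theorem YNF_cast {α : Type} [Finite α] (S : Set α) (f : α → ℤ) :
    ((∑ᶠ a ∈ S, f a : ℤ) : ℂ) = ∑ᶠ a ∈ S, (f a : ℂ) := by
  classical
  have hf : S.Finite := Set.toFinite S
  rw [finsum_mem_eq_finite_toFinset_sum _ hf, finsum_mem_eq_finite_toFinset_sum _ hf, Int.cast_sum]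

theorem YNF (hYNL : YNL_stmt) (hYTL : YTL_stmt) (hFNO : FNO_stmt) (hYTG : Pool.Agent.NE.YTG_stmt)
    (hZE1 : Pool.Agent.ZB.ZE1_stmt) : YNF_stmt := by
  classical
  intro p e m M hM hEB hem G _ _ G₀ hG₀ χ₀ hχ₀ z x hU d
  have : Fact p.Prime := ⟨hM.pr⟩
  obtain ⟨g, hg⟩ : ∃ g : Subgroup G → Subgroup G → ℤ, g = fun E' K => hE p m M G₀ χ₀ d E' K := ⟨_, rfl⟩
  have hne : ∀ E' K : Subgroup G, g E' K ≠ 0 → ∃ η, η ∈ BQ p m M G₀ (K ⊓ G₀) E' χ₀ := by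
    intro E' K h0
    by_contra h1
    apply h0
    have h2 : {η : G → ℂ | η ∈ BQ p m M G₀ (K ⊓ G₀) E' χ₀ ∧ Defect p (K ⊓ G₀) η d ∧
        ∀ κ ∈ K, cjF κ η = η} = ∅ := by
      rw [Set.eq_empty_iff_forall_notMem]
      exact fun η hη => h1 ⟨η, hη.1⟩
    rw [hg]
    show hE p m M G₀ χ₀ d E' K = 0
    unfold hE
    rw [h2, Set.ncard_empty, Nat.cast_zero, mul_zero, ite_self]
  have hpr : ∀ E' K : Subgroup G, g E' K ≠ 0 → E' ≤ K ∧ E' ≤ G₀ ∧ IsPGroup p E' ∧ ¬ E' ≤ ⊥ := by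
    intro E' K h0
    obtain ⟨η, h1, h2, Q, y, h3, h4, h5⟩ := hne E' K h0
    obtain ⟨-, ⟨-, a1, a2, a3, -⟩, -⟩ := hZE1 p hM.pr m G Q h4
    rw [h5] at a1 a2 a3
    have h6 : E' ≤ K ⊓ G₀ := a1.trans (h3.le.trans inf_le_left)
    refine ⟨h6.trans inf_le_left, h6.trans inf_le_right, a3, fun h7 => a2 (le_bot_iff.1 h7)⟩
  have h1 : ((cSum p G₀ ⊥ ⊤ (hB p M G₀ χ₀ d) : ℤ) : ℂ) =
      ∑ᶠ C ∈ {C : Finset (Subgroup G) | NCh p G₀ ⊥ C}, ∑ᶠ E' : Subgroup G,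
        (-1 : ℂ) ^ (C.card + 1) * ((g E' (nrm C ⊓ nz E') : ℤ) : ℂ) := by
    rw [hFNO G p G₀ ⊥ ⊤ (hB p M G₀ χ₀ d) IsPGroup.of_bot bot_le, YNF_cast]
    refine finsum_mem_congr rfl fun C hC => ?_
    have h2 := hYNL p e m M hM hEB hem G G₀ hG₀ χ₀ hχ₀ z x hU d (nrm C)
      (hYTL p M hM G G₀ hG₀ C hC)
    rw [top_inf_eq, ← mul_finsum]
    push_cast
    rw [h2, hg]
  have h3 : ∀ E' : Subgroup G,
      ∑ᶠ C ∈ {C : Finset (Subgroup G) | NCh p G₀ ⊥ C},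
        (-1 : ℂ) ^ (C.card + 1) * ((g E' (nrm C ⊓ nz E') : ℤ) : ℂ) = 0 := by
    intro E'
    by_cases hz : ∃ K : Subgroup G, g E' K ≠ 0
    · obtain ⟨K, hK⟩ := hz
      obtain ⟨-, hEG, hp, hnE⟩ := hpr E' K hK
      have h4 := hYTG G p G₀ ⊥ E' (fun K => ((g E' K : ℤ) : ℂ)) hp hEG hnE
      have h5 := hFNO G p G₀ ⊥ (nz E') (g E') IsPGroup.of_bot bot_le
      have h6 : ((cSum p G₀ ⊥ (nz E') (g E') : ℤ) : ℂ) = 0 := by
        rw [← h4]
        unfold cSum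
        rw [YNF_cast, finsum_mem_def, finsum_mem_def]
        refine finsum_congr fun C => ?_
        simp only [Set.indicator_apply, Set.mem_ofPred_eq]
        by_cases hP : PCh p G₀ ⊥ C
        · by_cases hE' : E' ≤ nrm C
          · rw [if_pos hP, if_pos ⟨hP, hE'⟩]
            push_cast
            rfl
          · rw [if_pos hP, if_neg (fun h => hE' h.2)]
            have h7 : g E' (nz E' ⊓ nrm C) = 0 := by
              by_contra h8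
              exact hE' ((hpr E' _ h8).1.trans inf_le_right)
            rw [h7, mul_zero, Int.cast_zero]
        · rw [if_neg hP, if_neg (fun h => hP h.1)]
      rw [h5, YNF_cast] at h6
      rw [← h6]
      refine finsum_mem_congr rfl fun C _ => ?_
      rw [inf_comm]
      push_cast
      rfl
    · push Not at hz
      have h4 : ∀ C ∈ {C : Finset (Subgroup G) | NCh p G₀ ⊥ C},
          (-1 : ℂ) ^ (C.card + 1) * ((g E' (nrm C ⊓ nz E') : ℤ) : ℂ) = (fun _ => (0 : ℂ)) C := by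
        intro C hC
        rw [hz, Int.cast_zero, mul_zero]
      rw [finsum_mem_congr rfl h4]
      simp
  have h4 : ((cSum p G₀ ⊥ ⊤ (hB p M G₀ χ₀ d) : ℤ) : ℂ) = 0 := by
    rw [h1, YNF_comm, finsum_congr h3, finsum_zero]
  exact_mod_cast h4

end Pool.Agent.ND.NY.E
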